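import Mathlib

/-! The local argument: for `x, y` in a finite group, the chain of the subgroups `Q_i`. -/

set_option autoImplicit false

namespace Pool.Agent.H98BT

open Subgroup

variable {G : Type*} [Group G]

/-- the elements `x ^ j * p`, `p ∈ W` -/
def AA (x : G) (W : Set G) : Set G := {z | ∃ (j : ℤ) (p : G), p ∈ W ∧ z = x ^ j * p}

theorem AA_mono {x : G} {W W' : Set G} (h : W ⊆ W') : AA x W ⊆ AA x W' := by
  rintro z ⟨j, p, hp, rfl⟩
  exact ⟨j, p, h hp, rfl⟩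

/-- the chain `Q_i` -/
def Qs (x : G) (B : Set G) (y : G) : ℕ → Set G
  | 0 => {1}
  | i + 1 => {q | q ∈ B ∧ y⁻¹ * q * y * q⁻¹ ∈ AA x (Qs x B y i)}

/-- the union of the chain -/
def Qf (x : G) (B : Set G) (y : G) : Set G := ⋃ i, Qs x B y i

/-- no nontrivial subgroup of `Rs` is normalised by `x`, `y`, `N` -/
def Good (x : G) (Rs N : Subgroup G) (y : G) : Prop :=
  ∀ U : Subgroup G, U ≤ Rs → x ∈ normalizer (U : Set G) → y ∈ normalizer (U : Set G) →
    N ≤ normalizer (U : Set G) → U = ⊥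

/-- an element which commutes with everything generates a normalised subgroup -/
theorem Good.eq_one {x y : G} {Rs N : Subgroup G} (h : Good x Rs N y) {t : G} (ht : t ∈ Rs)
    (hx : t * x = x * t) (hy : t * y = y * t) (hN : ∀ n ∈ N, t * n = n * t) : t = 1 := by
  have key : ∀ z : G, t * z = z * t → z ∈ normalizer ((zpowers t : Subgroup G) : Set G) := by
    intro z hz
    have h1 : ∀ u ∈ zpowers t, z * u * z⁻¹ = u := by
      rintro u ⟨k, rfl⟩
      have h2 : Commute (t ^ k) z := Commute.zpow_left hz k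
      change z * t ^ k * z⁻¹ = t ^ k
      rw [← h2.eq, mul_inv_cancel_right]
    rw [mem_normalizer_iff]
    intro u
    constructor
    · intro hu
      have := h1 u hu
      rw [this]; exact hu
    · intro hu
      have h3 := h1 _ hu
      have h4 : z * u * z⁻¹ = u := by
        have h5 : z * (z * u * z⁻¹) * z⁻¹ = z * u * z⁻¹ := h3
        have h6 := congrArg (fun a => z⁻¹ * a * z) h5
        simpa [mul_assoc] using h6
      rw [← h4]; exact hu
  have h1 := h (zpowers t) (by rwa [zpowers_le]) (key x hx) (key y hy)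
    (fun n hn => key n (hN n hn))
  have h2 : t ∈ (zpowers t : Subgroup G) := mem_zpowers t
  rw [h1] at h2
  exact mem_bot.1 h2

/-- the basic data -/
structure Dat (x : G) (B Rs N : Subgroup G) : Prop where
  BR : B ≤ Rs
  Bx : ∀ q ∈ B, q * x = x * q
  BN : ∀ q ∈ B, ∀ n ∈ N, q * n = n * q

section
variable {x : G} {B Rs N : Subgroup G}

theorem Dat.comm_zpow (h : Dat x B Rs N) {q : G} (hq : q ∈ B) (j : ℤ) :
    q * x ^ j = x ^ j * q := Commute.zpow_right (h.Bx q hq) j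

/-- an element of `B` which commutes with `W` commutes with `AA x W` -/
theorem Dat.comm_AA (h : Dat x B Rs N) {W : Set G} {q : G} (hq : q ∈ B)
    (hW : ∀ p ∈ W, q * p = p * q) {m : G} (hm : m ∈ AA x W) : q * m = m * q := by
  obtain ⟨j, p, hp, rfl⟩ := hm
  rw [← mul_assoc, h.comm_zpow hq, mul_assoc, hW p hp, mul_assoc]

theorem Dat.AA_comm (h : Dat x B Rs N) {V : Subgroup G} (hV : V ≤ B)
    (hc : ∀ a ∈ V, ∀ b ∈ V, a * b = b * a) {m m' : G} (hm : m ∈ AA x V) (hm' : m' ∈ AA x V) :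
    m * m' = m' * m := by
  obtain ⟨j, p, hp, rfl⟩ := hm
  have h1 : p * m' = m' * p := h.comm_AA (hV hp) (fun a ha => hc p hp a ha) hm'
  have h2 : x ^ j * m' = m' * x ^ j := by
    obtain ⟨k, r, hr, rfl⟩ := hm'
    rw [mul_assoc, h.comm_zpow (hV hr), ← mul_assoc, ← mul_assoc, ← zpow_add, ← zpow_add,
      add_comm]
  rw [mul_assoc, h1, ← mul_assoc, h2, mul_assoc]

theorem Dat.AA_mul (h : Dat x B Rs N) {V : Subgroup G} (hV : V ≤ B) {m m' : G}
    (hm : m ∈ AA x V) (hm' : m' ∈ AA x V) : m * m' ∈ AA x V := by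
  obtain ⟨j, p, hp, rfl⟩ := hm
  obtain ⟨k, r, hr, rfl⟩ := hm'
  refine ⟨j + k, p * r, V.mul_mem hp hr, ?_⟩
  rw [zpow_add, mul_assoc, ← mul_assoc p, h.comm_zpow (hV hp)]
  simp only [mul_assoc]

theorem Dat.AA_inv (h : Dat x B Rs N) {V : Subgroup G} (hV : V ≤ B) {m : G}
    (hm : m ∈ AA x V) : m⁻¹ ∈ AA x V := by
  obtain ⟨j, p, hp, rfl⟩ := hm
  refine ⟨-j, p⁻¹, V.inv_mem hp, ?_⟩
  rw [mul_inv_rev, ← zpow_neg, h.comm_zpow (hV (V.inv_mem hp))]

theorem AA_of_mem {W : Set G} {p : G} (hp : p ∈ W) : p ∈ AA x W := ⟨0, p, hp, by simp⟩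

theorem AA_zpow {W : Set G} (h1 : (1 : G) ∈ W) (j : ℤ) : x ^ j ∈ AA x W := ⟨j, 1, h1, by simp⟩

/-- **lemma C**: commutation with the chain -/
theorem Dat.C (h : Dat x B Rs N) {y : G} {V : Subgroup G} (hV : V ≤ B)
    (hc : ∀ a ∈ V, ∀ b ∈ V, a * b = b * a) (hg : ∀ p ∈ AA x (V : Set G), Good x Rs N (y * p))
    (W : ℕ → Set G) (n : ℕ) (hW0 : ∀ p ∈ W 0, p = 1) (hWV : ∀ i ≤ n, ∀ p ∈ W i, p ∈ V)
    (hW : ∀ i < n, ∀ p ∈ W (i + 1), y⁻¹ * p * y * p⁻¹ ∈ AA x (W i)) {s : G} (hs : s ∈ B)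
    (hsy : y⁻¹ * s * y * s⁻¹ ∈ AA x (V : Set G)) :
    ∀ i ≤ n, ∀ q ∈ W i, s * q = q * s := by
  intro i
  induction i with
  | zero =>
    intro _ q hq
    rw [hW0 q hq, mul_one, one_mul]
  | succ i ih =>
    intro hi q hq
    have ih' := ih (by omega)
    have hqV := hWV (i + 1) hi q hq
    have hqB := hV hqV
    obtain ⟨m, hm⟩ : ∃ m, m = y⁻¹ * s * y * s⁻¹ := ⟨_, rfl⟩
    obtain ⟨m', hm'⟩ : ∃ m', m' = y⁻¹ * q * y * q⁻¹ := ⟨_, rfl⟩
    have hmA : m ∈ AA x (V : Set G) := by rw [hm]; exact hsy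
    have hm'W : m' ∈ AA x (W i) := by rw [hm']; exact hW i (by omega) q hq
    have hm'A : m' ∈ AA x (V : Set G) := AA_mono (hWV i (by omega)) hm'W
    have hqA : q ∈ AA x (V : Set G) := AA_of_mem hqV
    have c1 : Commute s m' := h.comm_AA hs ih' hm'W
    have c2 : Commute m q := h.AA_comm hV hc hmA hqA
    have c3 : Commute m m' := h.AA_comm hV hc hmA hm'A
    have e1 : y⁻¹ * s * y = m * s := by rw [hm]; group
    have e2 : y⁻¹ * q * y = m' * q := by rw [hm']; group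
    obtain ⟨t, ht⟩ : ∃ t, t = s * q * s⁻¹ * q⁻¹ := ⟨_, rfl⟩
    have e3 : y⁻¹ * t * y = (m * m') * t * (m * m')⁻¹ := by
      have e4 : y⁻¹ * t * y = (y⁻¹ * s * y) * (y⁻¹ * q * y) * (y⁻¹ * s * y)⁻¹ *
          (y⁻¹ * q * y)⁻¹ := by rw [ht]; group
      rw [e4, e1, e2, ht]
      have c2' : Commute m⁻¹ q⁻¹ := c2.inv_inv
      calc m * s * (m' * q) * (m * s)⁻¹ * (m' * q)⁻¹
          = m * (s * m') * q * s⁻¹ * (m⁻¹ * q⁻¹) * m'⁻¹ := by group
        _ = m * (m' * s) * q * s⁻¹ * (q⁻¹ * m⁻¹) * m'⁻¹ := by rw [c1.eq, c2'.eq]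
        _ = (m * m') * (s * q * s⁻¹ * q⁻¹) * (m' * m)⁻¹ := by group
        _ = _ := by rw [c3.eq]
    have ht1 : t = 1 := by
      apply (hg (m * m') (h.AA_mul hV hmA hm'A)).eq_one
      · rw [ht]
        exact h.BR (B.mul_mem (B.mul_mem (B.mul_mem hs hqB) (B.inv_mem hs)) (B.inv_mem hqB))
      · have a1 : Commute s x := h.Bx s hs
        have a2 : Commute q x := h.Bx q hqB
        rw [ht]
        exact (((a1.mul_left a2).mul_left a1.inv_left).mul_left a2.inv_left).eq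
      · have e5 : t * (y * (m * m')) = y * ((m * m') * t * (m * m')⁻¹) * (m * m') := by
          rw [← e3]; group
        rw [e5]; group
      · intro k hk
        have a1 : Commute s k := h.BN s hs k hk
        have a2 : Commute q k := h.BN q hqB k hk
        rw [ht]
        exact (((a1.mul_left a2).mul_left a1.inv_left).mul_left a2.inv_left).eq
    have e6 : s * q * s⁻¹ * q⁻¹ = 1 := by rw [← ht]; exact ht1
    calc s * q = (s * q * s⁻¹ * q⁻¹) * (q * s) := by group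
      _ = q * s := by rw [e6, one_mul]

end

/-! ### The largest normalised subgroup -/

/-- `U` is a subgroup of `Rs` normalised by `x`, `y`, `N` -/
def Inv (x : G) (Rs N : Subgroup G) (y : G) (U : Subgroup G) : Prop :=
  U ≤ Rs ∧ x ∈ normalizer (U : Set G) ∧ y ∈ normalizer (U : Set G) ∧ N ≤ normalizer (U : Set G)

/-- the largest one -/
noncomputable def II (x : G) (Rs N : Subgroup G) (y : G) : Subgroup G :=
  sSup {U | Inv x Rs N y U}

theorem mem_norm_iff {z : G} {U : Subgroup G} :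
    z ∈ normalizer (U : Set G) ↔ U.map (MulAut.conj z).toMonoidHom = U :=
  mem_normalizer_iff_map_conj_eq

theorem norm_sSup {z : G} {S : Set (Subgroup G)} (h : ∀ U ∈ S, z ∈ normalizer (U : Set G)) :
    z ∈ normalizer ((sSup S : Subgroup G) : Set G) := by
  rw [mem_norm_iff, sSup_eq_iSup, Subgroup.map_iSup]
  apply iSup_congr
  intro U
  rw [Subgroup.map_iSup]
  apply iSup_congr
  intro hU
  exact mem_norm_iff.1 (h U hU)

theorem II_Inv (x : G) (Rs N : Subgroup G) (y : G) : Inv x Rs N y (II x Rs N y) := by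
  refine ⟨sSup_le fun U hU => hU.1, norm_sSup fun U hU => hU.2.1, norm_sSup fun U hU => hU.2.2.1,
    fun n hn => norm_sSup fun U hU => hU.2.2.2 hn⟩

theorem le_II {x : G} {Rs N : Subgroup G} {y : G} {U : Subgroup G} (h : Inv x Rs N y U) :
    U ≤ II x Rs N y := le_sSup h

theorem Good_iff {x : G} {Rs N : Subgroup G} {y : G} : Good x Rs N y ↔ II x Rs N y = ⊥ := by
  constructor
  · intro h
    obtain ⟨h1, h2, h3, h4⟩ := II_Inv x Rs N y
    exact h _ h1 h2 h3 h4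
  · intro h U h1 h2 h3 h4
    exact le_bot_iff.1 (h ▸ le_II ⟨h1, h2, h3, h4⟩)

theorem norm_map {z p : G} {U : Subgroup G} (h : z ∈ normalizer (U : Set G)) :
    p * z * p⁻¹ ∈ normalizer ((U.map (MulAut.conj p).toMonoidHom : Subgroup G) : Set G) := by
  rw [mem_norm_iff] at h ⊢
  rw [map_map]
  conv_rhs => rw [← h, map_map]
  congr 1
  ext a
  simp only [MonoidHom.comp_apply, MulEquiv.coe_toMonoidHom, MulAut.conj_apply]
  group

theorem norm_of_le {p : G} {U : Subgroup G} (h : U.map (MulAut.conj p).toMonoidHom ≤ U)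
    (h' : U.map (MulAut.conj p⁻¹).toMonoidHom ≤ U) : p ∈ normalizer (U : Set G) := by
  rw [mem_norm_iff]
  apply le_antisymm h
  intro a ha
  refine ⟨p⁻¹ * a * p⁻¹⁻¹, ?_, ?_⟩
  · exact h' ⟨a, ha, rfl⟩
  · change p * (p⁻¹ * a * p⁻¹⁻¹) * p⁻¹ = a
    group

section
variable {x : G} {B Rs N : Subgroup G}

/-- **lemma I** -/
theorem Dat.I (h : Dat x B Rs N) {y : G} {V : Subgroup G} (hV : V ≤ B)
    (hc : ∀ a ∈ V, ∀ b ∈ V, a * b = b * a) (W : ℕ → Set G) (n : ℕ) (hW0 : ∀ p ∈ W 0, p = 1)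
    (hWV : ∀ i ≤ n, ∀ p ∈ W i, p ∈ V) (hWi : ∀ i ≤ n, ∀ p ∈ W i, p⁻¹ ∈ W i)
    (hW : ∀ i < n, ∀ p ∈ W (i + 1), y⁻¹ * p * y * p⁻¹ ∈ AA x (W i)) :
    ∀ i ≤ n, ∀ z ∈ AA x (V : Set G), ∀ m ∈ AA x (W i),
      II x Rs N (y * z) ≤ II x Rs N (y * z * m) := by
  intro i
  induction i with
  | zero =>
    rintro _ z hz m ⟨k, p, hp, rfl⟩
    rw [hW0 p hp, mul_one]
    obtain ⟨h1, h2, h3, h4⟩ := II_Inv x Rs N (y * z)
    exact le_II ⟨h1, h2, Subgroup.mul_mem _ h3 (Subgroup.zpow_mem _ h2 k), h4⟩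
  | succ i ih =>
    rintro hi z hz m ⟨k, p, hp, rfl⟩
    have ih' := ih (by omega)
    -- one inclusion for all elements of `W (i + 1)`
    have key : ∀ p ∈ W (i + 1),
        (II x Rs N (y * z)).map (MulAut.conj p).toMonoidHom ≤ II x Rs N (y * z) := by
      intro p hp
      have hpV := hWV (i + 1) hi p hp
      have hpB := hV hpV
      obtain ⟨m', hm'⟩ : ∃ m', m' = y⁻¹ * p * y * p⁻¹ := ⟨_, rfl⟩
      have hm'W : m' ∈ AA x (W i) := by rw [hm']; exact hW i (by omega) p hp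
      have hm'A : m' ∈ AA x (V : Set G) := AA_mono (hWV i (by omega)) hm'W
      have hm'i : m'⁻¹ ∈ AA x (W i) := by
        obtain ⟨j, r, hr, hjr⟩ := hm'W
        refine ⟨-j, r⁻¹, hWi i (by omega) r hr, ?_⟩
        rw [hjr, mul_inv_rev, ← zpow_neg,
          h.comm_zpow (hV (V.inv_mem (hWV i (by omega) r hr)))]
      have hpA : p ∈ AA x (V : Set G) := AA_of_mem hpV
      have c1 : p * z = z * p := h.AA_comm hV hc hpA hz
      have c2 : m' * z = z * m' := h.AA_comm hV hc hm'A hz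
      have e1 : p * (y * z) * p⁻¹ = y * z * m' := by
        have e2 : p * y = y * m' * p := by rw [hm']; group
        calc p * (y * z) * p⁻¹ = (p * y) * z * p⁻¹ := by group
          _ = y * m' * (p * z) * p⁻¹ := by rw [e2]; group
          _ = y * (m' * z) := by rw [c1]; group
          _ = _ := by rw [c2]; group
      obtain ⟨h1, h2, h3, h4⟩ := II_Inv x Rs N (y * z)
      have h5 : (II x Rs N (y * z)).map (MulAut.conj p).toMonoidHom ≤ II x Rs N (y * z * m') := by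
        apply le_II
        refine ⟨?_, ?_, ?_, ?_⟩
        · rintro _ ⟨a, ha, rfl⟩
          exact Rs.mul_mem (Rs.mul_mem (h.BR hpB) (h1 ha)) (Rs.inv_mem (h.BR hpB))
        · have := norm_map (p := p) h2
          rwa [h.Bx p hpB, mul_inv_cancel_right] at this
        · have := norm_map (p := p) h3
          rwa [e1] at this
        · intro a ha
          have := norm_map (p := p) (h4 ha)
          rwa [h.BN p hpB a ha, mul_inv_cancel_right] at this
      have h6 := ih' (z * m') (h.AA_mul hV hz hm'A) m'⁻¹ hm'i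
      rw [← mul_assoc, mul_inv_cancel_right] at h6
      exact h5.trans h6
    have h7 : p ∈ normalizer ((II x Rs N (y * z) : Subgroup G) : Set G) :=
      norm_of_le (key p hp) (key p⁻¹ (hWi (i + 1) hi p hp))
    obtain ⟨h1, h2, h3, h4⟩ := II_Inv x Rs N (y * z)
    exact le_II ⟨h1, h2, Subgroup.mul_mem _ h3 (Subgroup.mul_mem _ (Subgroup.zpow_mem _ h2 k) h7),
      h4⟩


theorem Qs_mono_succ (x : G) (B : Subgroup G) (y : G) (i : ℕ) :
    Qs x (B : Set G) y i ⊆ Qs x (B : Set G) y (i + 1) := by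
  induction i with
  | zero =>
    intro q hq
    have hq1 : q = 1 := hq
    subst hq1
    refine ⟨B.one_mem, 0, 1, rfl, ?_⟩
    simp
  | succ i ih =>
    rintro q ⟨hq, hq'⟩
    exact ⟨hq, AA_mono ih hq'⟩

theorem Qs_mono (x : G) (B : Subgroup G) (y : G) {i j : ℕ} (hij : i ≤ j) :
    Qs x (B : Set G) y i ⊆ Qs x (B : Set G) y j := by
  induction j, hij using Nat.le_induction with
  | base => exact subset_rfl
  | succ j _ ih => exact ih.trans (Qs_mono_succ x B y j)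

/-- the good subgroups -/
structure Adm (x : G) (B Rs N : Subgroup G) (y : G) (V : Subgroup G) : Prop where
  le : V ≤ B
  comm : ∀ a ∈ V, ∀ b ∈ V, a * b = b * a
  good : ∀ p ∈ AA x (V : Set G), Good x Rs N (y * p)

theorem Good.mul_zpow {y : G} (hG : Good x Rs N y) (j : ℤ) : Good x Rs N (y * x ^ j) := by
  intro U h1 h2 h3 h4
  apply hG U h1 h2 _ h4
  have := Subgroup.mul_mem _ h3 (Subgroup.zpow_mem _ h2 (-j))
  rwa [mul_assoc, ← zpow_add, add_neg_cancel, zpow_zero, mul_one] at this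

/-- the chain consists of good subgroups -/
theorem Dat.chain (h : Dat x B Rs N) {y : G} (hG : Good x Rs N y) (n : ℕ) :
    ∀ i ≤ n, ∃ V : Subgroup G, (V : Set G) = Qs x (B : Set G) y i ∧ Adm x B Rs N y V := by
  induction n with
  | zero =>
    intro i hi
    have hi0 : i = 0 := by omega
    subst hi0
    refine ⟨⊥, rfl, bot_le, ?_, ?_⟩
    · intro a ha b hb
      rw [mem_bot.1 ha, mem_bot.1 hb]
    · rintro p ⟨j, q, hq, rfl⟩
      rw [mem_bot.1 hq, mul_one]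
      exact hG.mul_zpow j
  | succ n ih =>
    intro i hi
    rcases Nat.lt_or_ge i (n + 1) with hlt | hge
    · exact ih i (by omega)
    have hin : i = n + 1 := by omega
    subst hin
    obtain ⟨V, hVQ, hVB, hVc, hVg⟩ := ih n le_rfl
    -- the elements of the next step commute with `V`
    have hcom : ∀ s ∈ B, y⁻¹ * s * y * s⁻¹ ∈ AA x (V : Set G) → ∀ q ∈ V, s * q = q * s := by
      intro s hs hsy q hq
      refine h.C hVB hVc hVg (fun j => Qs x (B : Set G) y j) n (fun p hp => hp) ?_ ?_ hs hsy n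
        le_rfl q ?_
      · intro j hj p hp
        rw [← SetLike.mem_coe, hVQ]
        exact Qs_mono x B y hj hp
      · intro j _ p hp
        exact hp.2
      · rw [← SetLike.mem_coe, hVQ] at hq
        exact hq
    obtain ⟨V', hV'⟩ : ∃ V' : Subgroup G, (V' : Set G) = Qs x (B : Set G) y (n + 1) := by
      refine ⟨{
        carrier := Qs x (B : Set G) y (n + 1)
        mul_mem' := ?_
        one_mem' := ?_
        inv_mem' := ?_ }, rfl⟩
      · rintro a b ⟨ha, ha'⟩ ⟨hb, hb'⟩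
        rw [← hVQ] at ha' hb'
        refine ⟨B.mul_mem ha hb, ?_⟩
        rw [← hVQ]
        have e1 : y⁻¹ * (a * b) * y * (a * b)⁻¹ =
            (y⁻¹ * a * y * a⁻¹) * (a * (y⁻¹ * b * y * b⁻¹) * a⁻¹) := by group
        have e2 : a * (y⁻¹ * b * y * b⁻¹) = (y⁻¹ * b * y * b⁻¹) * a :=
          h.comm_AA ha (hcom a ha ha') hb'
        rw [e1, e2, mul_inv_cancel_right]
        exact h.AA_mul hVB ha' hb'
      · exact Qs_mono_succ x B y n (by rw [← hVQ]; exact V.one_mem)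
      · rintro a ⟨ha, ha'⟩
        rw [← hVQ] at ha'
        refine ⟨B.inv_mem ha, ?_⟩
        rw [← hVQ]
        have e1 : y⁻¹ * a⁻¹ * y * (a⁻¹)⁻¹ = a⁻¹ * (y⁻¹ * a * y * a⁻¹)⁻¹ * a := by group
        have e2 : a * (y⁻¹ * a * y * a⁻¹)⁻¹ = (y⁻¹ * a * y * a⁻¹)⁻¹ * a :=
          h.comm_AA ha (hcom a ha ha') (h.AA_inv hVB ha')
        have e3 : a⁻¹ * (y⁻¹ * a * y * a⁻¹)⁻¹ * a = (y⁻¹ * a * y * a⁻¹)⁻¹ := by
          rw [mul_assoc, ← e2, inv_mul_cancel_left]
        rw [e1, e3]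
        exact h.AA_inv hVB ha'
    have hmem : ∀ q, q ∈ V' ↔ q ∈ B ∧ y⁻¹ * q * y * q⁻¹ ∈ AA x (V : Set G) := by
      intro q
      rw [← SetLike.mem_coe, hV', hVQ]
      exact Iff.rfl
    have hV'B : V' ≤ B := fun q hq => ((hmem q).1 hq).1
    have hVV' : V ≤ V' := by
      intro q hq
      rw [← SetLike.mem_coe, hV']
      rw [← SetLike.mem_coe, hVQ] at hq
      exact Qs_mono_succ x B y n hq
    have hV'c : ∀ a ∈ V', ∀ b ∈ V', a * b = b * a := by
      intro s hs s' hs'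
      obtain ⟨hsB, hsy⟩ := (hmem s).1 hs
      obtain ⟨hsB', hsy'⟩ := (hmem s').1 hs'
      obtain ⟨m, hm⟩ : ∃ m, m = y⁻¹ * s * y * s⁻¹ := ⟨_, rfl⟩
      obtain ⟨m', hm'⟩ : ∃ m', m' = y⁻¹ * s' * y * s'⁻¹ := ⟨_, rfl⟩
      rw [← hm] at hsy
      rw [← hm'] at hsy'
      have c1 : Commute s m' := h.comm_AA hsB (hcom s hsB (by rw [← hm]; exact hsy)) hsy'
      have c2 : Commute s' m := h.comm_AA hsB' (hcom s' hsB' (by rw [← hm']; exact hsy')) hsy
      have c3 : Commute m m' := h.AA_comm hVB hVc hsy hsy'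
      have e1 : y⁻¹ * s * y = m * s := by rw [hm]; group
      have e2 : y⁻¹ * s' * y = m' * s' := by rw [hm']; group
      obtain ⟨t, ht⟩ : ∃ t, t = s * s' * s⁻¹ * s'⁻¹ := ⟨_, rfl⟩
      have e3 : y⁻¹ * t * y = t := by
        have e4 : y⁻¹ * t * y = (y⁻¹ * s * y) * (y⁻¹ * s' * y) * (y⁻¹ * s * y)⁻¹ *
            (y⁻¹ * s' * y)⁻¹ := by rw [ht]; group
        rw [e4, e1, e2, ht]
        calc m * s * (m' * s') * (m * s)⁻¹ * (m' * s')⁻¹
            = m * (s * m') * s' * s⁻¹ * (m⁻¹ * s'⁻¹) * m'⁻¹ := by group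
          _ = m * (m' * s) * s' * s⁻¹ * (s'⁻¹ * m⁻¹) * m'⁻¹ := by
              rw [c1.eq, c2.inv_inv.symm.eq]
          _ = (m * m') * (s * s' * s⁻¹ * s'⁻¹) * (m' * m)⁻¹ := by group
          _ = (m * m') * (s * s' * s⁻¹ * s'⁻¹) * (m * m')⁻¹ := by rw [c3.eq]
          _ = s * s' * s⁻¹ * s'⁻¹ := by
              have c4 : Commute (m * m') (s * s' * s⁻¹ * s'⁻¹) := by
                have d1 : Commute m s := (h.comm_AA hsB (hcom s hsB (by rw [← hm]; exact hsy))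
                  hsy).symm
                have d2 : Commute m' s' := (h.comm_AA hsB'
                  (hcom s' hsB' (by rw [← hm']; exact hsy')) hsy').symm
                have d3 : Commute m s' := c2.symm
                have d4 : Commute m' s := c1.symm
                exact ((((d1.mul_left d4).mul_right (d3.mul_left d2)).mul_right
                  (d1.mul_left d4).inv_right).mul_right (d3.mul_left d2).inv_right)
              rw [c4.eq, mul_inv_cancel_right]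
      have ht1 : t = 1 := by
        apply hG.eq_one
        · rw [ht]
          exact h.BR (B.mul_mem (B.mul_mem (B.mul_mem hsB hsB') (B.inv_mem hsB)) (B.inv_mem hsB'))
        · have a1 : Commute s x := h.Bx s hsB
          have a2 : Commute s' x := h.Bx s' hsB'
          rw [ht]
          exact (((a1.mul_left a2).mul_left a1.inv_left).mul_left a2.inv_left).eq
        · calc t * y = y * (y⁻¹ * t * y) := by group
            _ = y * t := by rw [e3]
        · intro k hk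
          have a1 : Commute s k := h.BN s hsB k hk
          have a2 : Commute s' k := h.BN s' hsB' k hk
          rw [ht]
          exact (((a1.mul_left a2).mul_left a1.inv_left).mul_left a2.inv_left).eq
      have e6 : s * s' * s⁻¹ * s'⁻¹ = 1 := by rw [← ht]; exact ht1
      calc s * s' = (s * s' * s⁻¹ * s'⁻¹) * (s' * s) := by group
        _ = s' * s := by rw [e6, one_mul]
    refine ⟨V', hV', hV'B, hV'c, ?_⟩
    -- good
    intro p hp
    rw [Good_iff, eq_bot_iff]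
    have hI := h.I (y := y) hV'B hV'c (fun j => Qs x (B : Set G) y j) (n + 1) (fun p hp => hp)
      (fun j hj p hp => by
        rw [← SetLike.mem_coe, hV']
        exact Qs_mono x B y hj hp)
      (fun j hj p hp => by
        rcases Nat.lt_or_ge j (n + 1) with hlt | hge
        · obtain ⟨W, hW, _⟩ := ih j (by omega)
          rw [← hW] at hp ⊢
          exact W.inv_mem hp
        · have hj1 : j = n + 1 := by omega
          subst hj1
          change p ∈ Qs x (B : Set G) y (n + 1) at hp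
          change p⁻¹ ∈ Qs x (B : Set G) y (n + 1)
          rw [← hV'] at hp ⊢
          exact V'.inv_mem hp)
      (fun j _ p hp => hp.2) (n + 1) le_rfl p hp p⁻¹ (by
        have := h.AA_inv hV'B hp
        rwa [hV'] at this)
    rw [mul_assoc, mul_inv_cancel, mul_one] at hI
    have h1 := Good_iff.1 hG
    rw [h1] at hI
    exact hI


/-- the union of the chain -/
theorem Dat.union (h : Dat x B Rs N) {y : G} (hG : Good x Rs N y) :
    ∃ Q : Subgroup G, (Q : Set G) = Qf x (B : Set G) y ∧ Adm x B Rs N y Q ∧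
      (∀ i, Qs x (B : Set G) y i ⊆ Q) ∧
      (∀ q ∈ Q, y⁻¹ * q * y * q⁻¹ ∈ AA x (Q : Set G)) ∧
      ∀ q ∈ B, y⁻¹ * q * y * q⁻¹ ∈ AA x (Q : Set G) → q ∈ Q := by
  have hex : ∀ i, ∃ V : Subgroup G, (V : Set G) = Qs x (B : Set G) y i ∧ Adm x B Rs N y V :=
    fun i => h.chain hG i i le_rfl
  obtain ⟨Q, hQ⟩ : ∃ Q : Subgroup G, (Q : Set G) = Qf x (B : Set G) y := by
    refine ⟨{
      carrier := Qf x (B : Set G) y
      mul_mem' := ?_
      one_mem' := ?_
      inv_mem' := ?_ }, rfl⟩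
    · intro a b ha hb
      obtain ⟨i, hi⟩ := Set.mem_iUnion.1 ha
      obtain ⟨j, hj⟩ := Set.mem_iUnion.1 hb
      obtain ⟨V, hV, _⟩ := hex (max i j)
      apply Set.mem_iUnion.2
      refine ⟨max i j, ?_⟩
      have h1 := Qs_mono x B y (le_max_left i j) hi
      have h2 := Qs_mono x B y (le_max_right i j) hj
      rw [← hV] at h1 h2 ⊢
      exact V.mul_mem h1 h2
    · exact Set.mem_iUnion.2 ⟨0, rfl⟩
    · intro a ha
      obtain ⟨i, hi⟩ := Set.mem_iUnion.1 ha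
      obtain ⟨V, hV, _⟩ := hex i
      apply Set.mem_iUnion.2
      refine ⟨i, ?_⟩
      rw [← hV] at hi ⊢
      exact V.inv_mem hi
  have hmem : ∀ q, q ∈ Q ↔ ∃ i, q ∈ Qs x (B : Set G) y i := by
    intro q
    rw [← SetLike.mem_coe, hQ]
    exact Set.mem_iUnion
  have hsub : ∀ i, Qs x (B : Set G) y i ⊆ Q := fun i q hq => (hmem q).2 ⟨i, hq⟩
  refine ⟨Q, hQ, ⟨?_, ?_, ?_⟩, hsub, ?_, ?_⟩
  · intro q hq
    obtain ⟨i, hi⟩ := (hmem q).1 hq
    obtain ⟨V, hV, hA⟩ := hex i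
    rw [← hV] at hi
    exact hA.le hi
  · intro a ha b hb
    obtain ⟨i, hi⟩ := (hmem a).1 ha
    obtain ⟨j, hj⟩ := (hmem b).1 hb
    obtain ⟨V, hV, hA⟩ := hex (max i j)
    have h1 := Qs_mono x B y (le_max_left i j) hi
    have h2 := Qs_mono x B y (le_max_right i j) hj
    rw [← hV] at h1 h2
    exact hA.comm a h1 b h2
  · rintro p ⟨j, q, hq, rfl⟩
    obtain ⟨i, hi⟩ := (hmem q).1 hq
    obtain ⟨V, hV, hA⟩ := hex i
    rw [← hV] at hi
    exact hA.good _ ⟨j, q, hi, rfl⟩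
  · intro q hq
    obtain ⟨i, hi⟩ := (hmem q).1 hq
    have h1 := Qs_mono_succ x B y i hi
    exact AA_mono (hsub i) h1.2
  · rintro q hqB ⟨j, p, hp, hjp⟩
    obtain ⟨i, hi⟩ := (hmem p).1 hp
    exact (hmem q).2 ⟨i + 1, hqB, j, p, hi, hjp⟩

theorem phi_eq {y q m : G} (h1 : q * m = m * q)
    (h2 : (y⁻¹ * q * y * q⁻¹) * m = m * (y⁻¹ * q * y * q⁻¹)) :
    (y * m)⁻¹ * q * (y * m) * q⁻¹ = y⁻¹ * q * y * q⁻¹ := by
  obtain ⟨n, hn⟩ : ∃ n, n = y⁻¹ * q * y * q⁻¹ := ⟨_, rfl⟩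
  have e1 : y⁻¹ * q * y = n * q := by rw [hn]; group
  rw [← hn] at h2 ⊢
  calc (y * m)⁻¹ * q * (y * m) * q⁻¹ = m⁻¹ * (y⁻¹ * q * y) * m * q⁻¹ := by group
    _ = m⁻¹ * n * (q * m) * q⁻¹ := by rw [e1]; group
    _ = m⁻¹ * (n * m) := by rw [h1]; group
    _ = n := by rw [h2]; group

theorem phi_eq' {y q m : G} (h1 : q * m = m * q)
    (h2 : ((y * m)⁻¹ * q * (y * m) * q⁻¹) * m = m * ((y * m)⁻¹ * q * (y * m) * q⁻¹)) :
    y⁻¹ * q * y * q⁻¹ = (y * m)⁻¹ * q * (y * m) * q⁻¹ := by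
  have h3 : q * m⁻¹ = m⁻¹ * q := (Commute.inv_right (show Commute q m from h1)).eq
  have h4 : ((y * m)⁻¹ * q * (y * m) * q⁻¹) * m⁻¹ = m⁻¹ * ((y * m)⁻¹ * q * (y * m) * q⁻¹) :=
    (Commute.inv_right (show Commute _ m from h2)).eq
  have h5 := phi_eq (y := y * m) (q := q) (m := m⁻¹) h3 h4
  rwa [mul_inv_cancel_right] at h5

/-- the elements which move `y m` inside `y ⟨x⟩ Q` -/
theorem Dat.key (h : Dat x B Rs N) {y : G} {Q : Subgroup G} (hA : Adm x B Rs N y Q)
    (hQ : (Q : Set G) = Qf x (B : Set G) y) (hsub : ∀ i, Qs x (B : Set G) y i ⊆ Q)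
    (hcl : ∀ q ∈ B, y⁻¹ * q * y * q⁻¹ ∈ AA x (Q : Set G) → q ∈ Q) {m : G}
    (hm : m ∈ AA x (Q : Set G)) {r : G} (hr : r ∈ B)
    (hrm : (y * m)⁻¹ * r * (y * m) * r⁻¹ ∈ AA x (Q : Set G)) :
    (∀ p ∈ AA x (Q : Set G), r * p = p * r) ∧ r ∈ Q ∧
      y⁻¹ * r * y * r⁻¹ = (y * m)⁻¹ * r * (y * m) * r⁻¹ := by
  have hrQ : ∀ q ∈ Q, r * q = q * r := by
    intro q hq
    have hq' : q ∈ Qf x (B : Set G) y := by rw [← hQ]; exact hq
    obtain ⟨i, hi⟩ := Set.mem_iUnion.1 hq'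
    refine h.C hA.le hA.comm (y := y * m) ?_ (fun j => Qs x (B : Set G) y j) i (fun p hp => hp)
      (fun j _ p hp => hsub j hp) ?_ hr hrm i le_rfl q hi
    · intro p hp
      rw [mul_assoc]
      exact hA.good _ (h.AA_mul hA.le hm hp)
    · intro j _ p hp
      have hpQ : p ∈ Q := hsub (j + 1) hp
      have h1 : y⁻¹ * p * y * p⁻¹ ∈ AA x (Qs x (B : Set G) y j) := hp.2
      rw [phi_eq (h.AA_comm hA.le hA.comm (AA_of_mem hpQ) hm)
        (h.AA_comm hA.le hA.comm (AA_mono (hsub j) h1) hm)]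
      exact h1
  have hrA : ∀ p ∈ AA x (Q : Set G), r * p = p * r := fun p hp => h.comm_AA hr hrQ hp
  have e1 := phi_eq' (y := y) (hrA m hm) (h.AA_comm hA.le hA.comm hrm hm)
  refine ⟨hrA, hcl r hr ?_, e1⟩
  rw [e1]
  exact hrm

/-- the chain does not change -/
theorem Dat.same (h : Dat x B Rs N) {y : G} {Q : Subgroup G} (hA : Adm x B Rs N y Q)
    (hQ : (Q : Set G) = Qf x (B : Set G) y) (hsub : ∀ i, Qs x (B : Set G) y i ⊆ Q)
    (hcl : ∀ q ∈ B, y⁻¹ * q * y * q⁻¹ ∈ AA x (Q : Set G) → q ∈ Q) {m : G}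
    (hm : m ∈ AA x (Q : Set G)) (i : ℕ) :
    Qs x (B : Set G) (y * m) i = Qs x (B : Set G) y i := by
  induction i with
  | zero => rfl
  | succ i ih =>
    ext q
    constructor
    · rintro ⟨hq, hq'⟩
      rw [ih] at hq'
      obtain ⟨_, _, h3⟩ := h.key hA hQ hsub hcl hm hq (AA_mono (hsub i) hq')
      refine ⟨hq, ?_⟩
      rw [h3]
      exact hq'
    · intro hq
      have hqQ : q ∈ Q := hsub (i + 1) hq
      refine ⟨hq.1, ?_⟩
      rw [ih, phi_eq (h.AA_comm hA.le hA.comm (AA_of_mem hqQ) hm)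
        (h.AA_comm hA.le hA.comm (AA_mono (hsub i) hq.2) hm)]
      exact hq.2

theorem Dat.same' (h : Dat x B Rs N) {y : G} {Q : Subgroup G} (hA : Adm x B Rs N y Q)
    (hQ : (Q : Set G) = Qf x (B : Set G) y) (hsub : ∀ i, Qs x (B : Set G) y i ⊆ Q)
    (hcl : ∀ q ∈ B, y⁻¹ * q * y * q⁻¹ ∈ AA x (Q : Set G) → q ∈ Q) {m : G}
    (hm : m ∈ AA x (Q : Set G)) : Qf x (B : Set G) (y * m) = Qf x (B : Set G) y := by
  unfold Qf
  apply Set.iUnion_congr
  intro i
  exact h.same hA hQ hsub hcl hm i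

end

/-! ### Conjugation -/

section conj

theorem AA_conj (r x : G) (W : Set G) (z : G) :
    z ∈ AA (r * x * r⁻¹) {q | r⁻¹ * q * r ∈ W} ↔ r⁻¹ * z * r ∈ AA x W := by
  constructor
  · rintro ⟨j, p, hp, rfl⟩
    refine ⟨j, r⁻¹ * p * r, hp, ?_⟩
    rw [conj_zpow]
    group
  · rintro ⟨j, p, hp, hz⟩
    refine ⟨j, r * p * r⁻¹, ?_, ?_⟩
    · change r⁻¹ * (r * p * r⁻¹) * r ∈ W
      have e : r⁻¹ * (r * p * r⁻¹) * r = p := by group
      rw [e]
      exact hp
    · rw [conj_zpow]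
      calc z = r * (r⁻¹ * z * r) * r⁻¹ := by group
        _ = r * (x ^ j * p) * r⁻¹ := by rw [hz]
        _ = _ := by group

theorem Qs_conj (r x y : G) (B : Set G) (i : ℕ) :
    Qs (r * x * r⁻¹) {q | r⁻¹ * q * r ∈ B} (r * y * r⁻¹) i = {q | r⁻¹ * q * r ∈ Qs x B y i} := by
  induction i with
  | zero =>
    ext q
    constructor
    · intro hq
      have hq1 : q = 1 := hq
      subst hq1
      change r⁻¹ * 1 * r = 1
      group
    · intro hq
      have hq1 : r⁻¹ * q * r = 1 := hq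
      change q = 1
      calc q = r * (r⁻¹ * q * r) * r⁻¹ := by group
        _ = 1 := by rw [hq1]; group
  | succ i ih =>
    ext q
    change (r⁻¹ * q * r ∈ B ∧ (r * y * r⁻¹)⁻¹ * q * (r * y * r⁻¹) * q⁻¹ ∈
      AA (r * x * r⁻¹) (Qs (r * x * r⁻¹) {q | r⁻¹ * q * r ∈ B} (r * y * r⁻¹) i)) ↔
      (r⁻¹ * q * r ∈ B ∧ y⁻¹ * (r⁻¹ * q * r) * y * (r⁻¹ * q * r)⁻¹ ∈ AA x (Qs x B y i))
    rw [ih, AA_conj]
    have e : r⁻¹ * ((r * y * r⁻¹)⁻¹ * q * (r * y * r⁻¹) * q⁻¹) * r =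
        y⁻¹ * (r⁻¹ * q * r) * y * (r⁻¹ * q * r)⁻¹ := by group
    rw [e]

theorem Qf_conj (r x y : G) (B : Set G) :
    Qf (r * x * r⁻¹) {q | r⁻¹ * q * r ∈ B} (r * y * r⁻¹) = {q | r⁻¹ * q * r ∈ Qf x B y} := by
  ext q
  unfold Qf
  rw [Set.mem_iUnion]
  change _ ↔ r⁻¹ * q * r ∈ ⋃ i, Qs x B y i
  rw [Set.mem_iUnion]
  apply exists_congr
  intro i
  rw [Qs_conj]
  exact Iff.rfl

end conj

end Pool.Agent.H98BT
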