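import Mathlib

/-! Points `(s, x, y, l)` and the moves on them. -/

set_option autoImplicit false

namespace Pool.Agent.H98BT

open Subgroup

/-- the points `(s, x, y, l)` -/
abbrev Pt (X G : Type*) := X × G × G × List G

section
variable {X G : Type*} [Group G]

/-- conjugation of the entries of a list -/
def cl (r : G) (l : List G) : List G := l.map fun z => r * z * r⁻¹

@[simp] theorem cl_nil (r : G) : cl r ([] : List G) = [] := rfl

@[simp] theorem cl_cons (r z : G) (l : List G) : cl r (z :: l) = (r * z * r⁻¹) :: cl r l := rfl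

@[simp] theorem cl_append (r : G) (l l' : List G) : cl r (l ++ l') = cl r l ++ cl r l' := by
  unfold cl
  rw [List.map_append]

@[simp] theorem cl_one (l : List G) : cl (1 : G) l = l := by
  unfold cl
  simp

@[simp] theorem cl_length (r : G) (l : List G) : (cl r l).length = l.length := by
  unfold cl
  simp

theorem cl_cl (r t : G) (l : List G) : cl r (cl t l) = cl (r * t) l := by
  unfold cl
  rw [List.map_map]
  apply List.map_congr_left
  intro z _
  simp only [Function.comp_apply]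
  group

theorem cl_prod (r : G) (l : List G) : (cl r l).prod = r * l.prod * r⁻¹ := by
  induction l with
  | nil => simp
  | cons z l ih =>
    rw [cl_cons, List.prod_cons, List.prod_cons, ih]
    group

theorem mem_cl {r : G} {l : List G} {z : G} : z ∈ cl r l ↔ r⁻¹ * z * r ∈ l := by
  unfold cl
  rw [List.mem_map]
  constructor
  · rintro ⟨a, ha, rfl⟩
    have e : r⁻¹ * (r * a * r⁻¹) * r = a := by group
    rw [e]
    exact ha
  · intro h
    exact ⟨_, h, by group⟩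

theorem cl_inj {r : G} {l l' : List G} (h : cl r l = cl r l') : l = l' := by
  have h1 := congrArg (cl r⁻¹) h
  rwa [cl_cl, cl_cl, inv_mul_cancel, cl_one, cl_one] at h1

theorem cl_take (r : G) (l : List G) (i : ℕ) : (cl r l).take i = cl r (l.take i) := by
  unfold cl
  rw [List.map_take]

theorem cl_drop (r : G) (l : List G) (i : ℕ) : (cl r l).drop i = cl r (l.drop i) := by
  unfold cl
  rw [List.map_drop]

/-- conjugation -/
def cj [MulAction G X] (r : G) (w : Pt X G) : Pt X G :=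
  (r • w.1, r * w.2.1 * r⁻¹, r * w.2.2.1 * r⁻¹, cl r w.2.2.2)

theorem cj_one [MulAction G X] (w : Pt X G) : cj (1 : G) w = w := by
  unfold cj
  rw [one_smul, cl_one]
  simp

theorem cj_mul [MulAction G X] (r t : G) (w : Pt X G) : cj (r * t) w = cj r (cj t w) := by
  unfold cj
  simp only [mul_smul, cl_cl, Prod.mk.injEq, true_and, and_true]
  constructor <;> group

/-- the entries lie in `H` -/
def Mem (H : Subgroup G) (w : Pt X G) : Prop := w.2.1 ∈ H ∧ w.2.2.1 ∈ H ∧ ∀ z ∈ w.2.2.2, z ∈ H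

/-- the move `A_i` : `w = K x₁`, `y ↦ w y`, the entries from `i` on are conjugated by `w` -/
def mvA (i : ℕ) (w : Pt X G) : Pt X G :=
  (w.1, w.2.1, ((w.2.2.2.drop i).prod * (w.2.2.1 * w.2.1 * w.2.2.1⁻¹)) * w.2.2.1,
    w.2.2.2.take i ++
      cl ((w.2.2.2.drop i).prod * (w.2.2.1 * w.2.1 * w.2.2.1⁻¹)) (w.2.2.2.drop i))

/-- the move `b` -/
def mvB (w : Pt X G) : Pt X G := (w.1, w.2.1 * w.2.2.1⁻¹, w.2.2.1, w.2.2.2)

/-- the move `T_i` : the entries from `i` on are conjugated by their product -/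
def mvT (i : ℕ) (w : Pt X G) : Pt X G :=
  (w.1, w.2.1, w.2.2.1, w.2.2.2.take i ++ cl (w.2.2.2.drop i).prod (w.2.2.2.drop i))

/-- the move `A'_i` : only the entry `i` is conjugated -/
def mvC (i : ℕ) (w : Pt X G) : Pt X G :=
  let K := (w.2.2.2.drop (i + 1)).prod
  let c := K⁻¹ * ((w.2.2.2.drop i).take 1).prod * K
  let v := c * (w.2.2.1 * w.2.1 * w.2.2.1⁻¹)
  (w.1, w.2.1, v * w.2.2.1,
    w.2.2.2.take i ++ (cl (K * v * K⁻¹) ((w.2.2.2.drop i).take 1) ++ w.2.2.2.drop (i + 1)))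

/-! ### The moves on a split list -/

theorem mvA_split (s : X) (x y : G) (p q : List G) :
    mvA p.length (s, x, y, p ++ q) =
      (s, x, (q.prod * (y * x * y⁻¹)) * y, p ++ cl (q.prod * (y * x * y⁻¹)) q) := by
  unfold mvA
  simp

theorem mvT_split (s : X) (x y : G) (p q : List G) :
    mvT p.length (s, x, y, p ++ q) = (s, x, y, p ++ cl q.prod q) := by
  unfold mvT
  simp

theorem mvC_split (s : X) (x y z : G) (p q : List G) :
    mvC p.length (s, x, y, p ++ (z :: q)) =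
      (s, x, (q.prod⁻¹ * z * q.prod * (y * x * y⁻¹)) * y,
        p ++ ((q.prod * (q.prod⁻¹ * z * q.prod * (y * x * y⁻¹)) * q.prod⁻¹) * z *
          (q.prod * (q.prod⁻¹ * z * q.prod * (y * x * y⁻¹)) * q.prod⁻¹)⁻¹) :: q) := by
  unfold mvC
  have h1 : (p ++ z :: q).drop (p.length + 1) = q := by
    rw [List.drop_append]
    simp
  simp [h1]

omit [Group G] in
theorem exists_split (l : List G) {i : ℕ} (hi : i ≤ l.length) :
    ∃ p q : List G, l = p ++ q ∧ p.length = i :=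
  ⟨l.take i, l.drop i, (List.take_append_drop i l).symm, by simp [hi]⟩

omit [Group G] in
theorem exists_split' (l : List G) {i : ℕ} (hi : i < l.length) :
    ∃ (p : List G) (z : G) (q : List G), l = p ++ (z :: q) ∧ p.length = i := by
  obtain ⟨p, q, h, hp⟩ := exists_split l hi.le
  cases q with
  | nil =>
    exfalso
    rw [List.append_nil] at h
    rw [h] at hi
    omega
  | cons z q => exact ⟨p, z, q, h, hp⟩

/-! ### The braid relations -/

theorem mvA_braid {i : ℕ} {w : Pt X G} (hi : i ≤ w.2.2.2.length) :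
    mvA i (mvB (mvA i w)) = mvB (mvA i (mvB w)) := by
  obtain ⟨s, x, y, l⟩ := w
  obtain ⟨p, q, hl, hp⟩ := exists_split l hi
  subst hl
  subst hp
  change mvA p.length (mvB (mvA p.length (s, x, y, p ++ q))) =
    mvB (mvA p.length (s, x * y⁻¹, y, p ++ q))
  rw [mvA_split, mvA_split]
  change mvA p.length (s, x * ((q.prod * (y * x * y⁻¹)) * y)⁻¹, (q.prod * (y * x * y⁻¹)) * y,
    p ++ cl (q.prod * (y * x * y⁻¹)) q) = (s, x * y⁻¹ * ((q.prod * (y * (x * y⁻¹) * y⁻¹)) * y)⁻¹,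
      (q.prod * (y * (x * y⁻¹) * y⁻¹)) * y, p ++ cl (q.prod * (y * (x * y⁻¹) * y⁻¹)) q)
  rw [mvA_split, cl_prod, cl_cl]
  obtain ⟨K, hK⟩ : ∃ K, K = q.prod := ⟨_, rfl⟩
  rw [← hK]
  simp only [Prod.mk.injEq, true_and]
  refine ⟨by group, by group, ?_⟩
  congr 2
  group

theorem mvC_braid {i : ℕ} {w : Pt X G} (hi : i < w.2.2.2.length) :
    mvC i (mvB (mvC i w)) = mvB (mvC i (mvB w)) := by
  obtain ⟨s, x, y, l⟩ := w
  obtain ⟨p, z, q, hl, hp⟩ := exists_split' l hi
  subst hl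
  subst hp
  obtain ⟨K, hK⟩ : ∃ K, K = q.prod := ⟨_, rfl⟩
  have e : ∀ x y z : G, mvC p.length (s, x, y, p ++ (z :: q)) =
      (s, x, (K⁻¹ * z * K * (y * x * y⁻¹)) * y,
        p ++ ((K * (K⁻¹ * z * K * (y * x * y⁻¹)) * K⁻¹) * z *
          (K * (K⁻¹ * z * K * (y * x * y⁻¹)) * K⁻¹)⁻¹) :: q) := by
    intro x y z
    rw [mvC_split, hK]
  change mvC p.length (mvB (mvC p.length (s, x, y, p ++ (z :: q)))) =
    mvB (mvC p.length (s, x * y⁻¹, y, p ++ (z :: q)))
  rw [e, e]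
  unfold mvB
  dsimp only
  rw [e]
  simp only [Prod.mk.injEq, true_and]
  refine ⟨by group, by group, ?_⟩
  congr 2
  rw [← mul_inv_eq_one]
  group

/-! ### The chain relation -/

/-- the composition `a₁ A₀ b` -/
def mvF (w : Pt X G) : Pt X G := mvA w.2.2.2.length (mvA 0 (mvB w))

theorem mvA_zero (s : X) (x y : G) (l : List G) :
    mvA 0 (s, x, y, l) = (s, x, (l.prod * (y * x * y⁻¹)) * y, cl (l.prod * (y * x * y⁻¹)) l) := by
  have h := mvA_split s x y [] l
  simpa using h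

theorem mvA_last (s : X) (x y : G) (l : List G) {i : ℕ} (hi : l.length = i) :
    mvA i (s, x, y, l) = (s, x, y * x, l) := by
  have h := mvA_split s x y l []
  rw [List.append_nil, hi] at h
  rw [h]
  simp

/-- the commutator relation -/
def Rel (g : G) (w : Pt X G) : Prop :=
  w.2.1 * w.2.2.1 * w.2.1⁻¹ * w.2.2.1⁻¹ = g * w.2.2.2.prod

theorem rel_mvA {g : G} {i : ℕ} {w : Pt X G} (hi : i ≤ w.2.2.2.length) (h : Rel g w) :
    Rel g (mvA i w) := by
  obtain ⟨s, x, y, l⟩ := w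
  obtain ⟨p, q, hl, hp⟩ := exists_split l hi
  subst hl
  subst hp
  rw [mvA_split]
  unfold Rel at h ⊢
  dsimp only at h ⊢
  rw [List.prod_append] at h ⊢
  rw [cl_prod]
  obtain ⟨K, hK⟩ : ∃ K, K = q.prod := ⟨_, rfl⟩
  obtain ⟨P, hP⟩ : ∃ P, P = p.prod := ⟨_, rfl⟩
  rw [← hK, ← hP] at h ⊢
  have h1 : g = x * y * x⁻¹ * y⁻¹ * (P * K)⁻¹ := by rw [h]; group
  rw [h1]
  group

theorem rel_mvB {g : G} {w : Pt X G} (h : Rel g w) : Rel g (mvB w) := by
  unfold Rel at h ⊢
  unfold mvB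
  dsimp only
  rw [← h]
  group

theorem rel_mvC {g : G} {i : ℕ} {w : Pt X G} (hi : i < w.2.2.2.length) (h : Rel g w) :
    Rel g (mvC i w) := by
  obtain ⟨s, x, y, l⟩ := w
  obtain ⟨p, z, q, hl, hp⟩ := exists_split' l hi
  subst hl
  subst hp
  rw [mvC_split]
  unfold Rel at h ⊢
  dsimp only at h ⊢
  rw [List.prod_append, List.prod_cons] at h ⊢
  obtain ⟨K, hK⟩ : ∃ K, K = q.prod := ⟨_, rfl⟩
  obtain ⟨P, hP⟩ : ∃ P, P = p.prod := ⟨_, rfl⟩
  rw [← hK, ← hP] at h ⊢
  have h1 : g = x * y * x⁻¹ * y⁻¹ * (P * (z * K))⁻¹ := by rw [h]; group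
  rw [h1]
  group

theorem rel_mvT {g : G} {i : ℕ} {w : Pt X G} (hi : i ≤ w.2.2.2.length) (h : Rel g w) :
    Rel g (mvT i w) := by
  obtain ⟨s, x, y, l⟩ := w
  obtain ⟨p, q, hl, hp⟩ := exists_split l hi
  subst hl
  subst hp
  rw [mvT_split]
  unfold Rel at h ⊢
  dsimp only at h ⊢
  rw [List.prod_append] at h ⊢
  rw [cl_prod, h]
  group

theorem mvF_val {g : G} (s : X) (x y : G) (l : List G) (h : Rel g (s, x, y, l)) :
    mvF (s, x, y, l) = (s, x * y⁻¹, g⁻¹ * x * (x * y⁻¹), cl (g⁻¹ * (x * y⁻¹)) l) := by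
  unfold Rel at h
  dsimp only at h
  have hK : l.prod = g⁻¹ * (x * y * x⁻¹ * y⁻¹) := by rw [h]; group
  unfold mvF
  change mvA l.length (mvA 0 (s, x * y⁻¹, y, l)) = _
  rw [mvA_zero, mvA_last _ _ _ _ (cl_length _ _), hK]
  simp only [Prod.mk.injEq, true_and]
  constructor
  · group
  · congr 1
    group

theorem mvF_length (w : Pt X G) : (mvF w).2.2.2.length = w.2.2.2.length := by
  obtain ⟨s, x, y, l⟩ := w
  unfold mvF
  change (mvA l.length (mvA 0 (s, x * y⁻¹, y, l))).2.2.2.length = l.length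
  rw [mvA_zero, mvA_last _ _ _ _ (cl_length _ _)]
  exact cl_length _ _

theorem rel_mvF {g : G} {w : Pt X G} (h : Rel g w) : Rel g (mvF w) := by
  unfold mvF
  apply rel_mvA
  · obtain ⟨s, x, y, l⟩ := w
    change l.length ≤ (mvA 0 (s, x * y⁻¹, y, l)).2.2.2.length
    rw [mvA_zero]
    change l.length ≤ (cl _ l).length
    rw [cl_length]
  · exact rel_mvA (Nat.zero_le _) (rel_mvB h)

theorem mvF2_val {g : G} (s : X) (x y : G) (l : List G) (h : Rel g (s, x, y, l)) :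
    mvF (mvF (s, x, y, l)) = (s, x⁻¹ * g, g⁻¹ * x * y⁻¹ * x⁻¹ * g, cl (g⁻¹ * y⁻¹) l) := by
  have h1 := rel_mvF h
  rw [mvF_val _ _ _ _ h] at h1 ⊢
  rw [mvF_val _ _ _ _ h1, cl_cl]
  simp only [Prod.mk.injEq, true_and]
  refine ⟨by group, by group, ?_⟩
  congr 1
  group

/-- **the chain relation** -/
theorem mvF4 [MulAction G X] {g : G} {w : Pt X G} (h : Rel g w) (hg : g • w.1 = w.1) :
    mvF (mvF (mvF (mvF w))) = cj g⁻¹ (mvT 0 w) := by
  obtain ⟨s, x, y, l⟩ := w
  have h2 := rel_mvF (rel_mvF h)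
  rw [mvF2_val _ _ _ _ h] at h2 ⊢
  rw [mvF2_val _ _ _ _ h2, cl_cl]
  unfold Rel at h
  dsimp only at h hg
  have hK : l.prod = g⁻¹ * (x * y * x⁻¹ * y⁻¹) := by rw [h]; group
  have hg' : g⁻¹ • s = s := by rw [inv_smul_eq_iff, hg]
  unfold cj mvT
  simp only [List.take_zero, List.drop_zero, List.nil_append, cl_cl, hg', hK, Prod.mk.injEq,
    true_and]
  refine ⟨by group, by group, ?_⟩
  congr 1
  group

/-! ### The lantern relation -/

theorem lantern {i : ℕ} {w : Pt X G} (hi : i < w.2.2.2.length) :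
    mvT i (mvA (i + 1) (mvC i w)) = mvA i (mvA w.2.2.2.length (mvT (i + 1) w)) := by
  obtain ⟨s, x, y, l⟩ := w
  obtain ⟨p, z, q, hl, hp⟩ := exists_split' l hi
  subst hl
  subst hp
  change mvT p.length (mvA (p.length + 1) (mvC p.length (s, x, y, p ++ (z :: q)))) =
    mvA p.length (mvA (p ++ (z :: q)).length (mvT (p.length + 1) (s, x, y, p ++ (z :: q))))
  have e1 : ∀ (a : G) (q : List G), p ++ (a :: q) = (p ++ [a]) ++ q := by
    intro a q
    simp
  have e2 : ∀ a : G, (p ++ [a]).length = p.length + 1 := by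
    intro a
    simp
  obtain ⟨K, hK⟩ : ∃ K, K = q.prod := ⟨_, rfl⟩
  have hA : ∀ x y a : G, mvA (p.length + 1) (s, x, y, p ++ (a :: q)) =
      (s, x, (K * (y * x * y⁻¹)) * y, p ++ (a :: cl (K * (y * x * y⁻¹)) q)) := by
    intro x y a
    rw [e1, ← e2 a, mvA_split, ← hK, ← e1]
  have hT : ∀ x y a : G, mvT (p.length + 1) (s, x, y, p ++ (a :: q)) =
      (s, x, y, p ++ (a :: cl K q)) := by
    intro x y a
    rw [e1, ← e2 a, mvT_split, ← hK, ← e1]
  rw [mvC_split, ← hK, hA, hT, mvT_split,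
    mvA_last s x y (p ++ (z :: cl K q)) (i := (p ++ (z :: q)).length) (by simp), mvA_split]
  simp only [List.prod_cons, cl_prod, cl_cons, cl_cl, ← hK, Prod.mk.injEq, true_and]
  refine ⟨by group, ?_⟩
  congr 2
  · group
  · congr 1
    group

/-! ### The moves commute with conjugations -/

theorem cj_mvA [MulAction G X] (r : G) (i : ℕ) (w : Pt X G) : mvA i (cj r w) = cj r (mvA i w) := by
  unfold mvA cj
  dsimp only
  simp only [cl_drop, cl_take, cl_prod, cl_cl, cl_append, Prod.mk.injEq, true_and]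
  constructor
  · group
  · congr 2
    group

theorem cj_mvB [MulAction G X] (r : G) (w : Pt X G) : mvB (cj r w) = cj r (mvB w) := by
  unfold mvB cj
  simp only [Prod.mk.injEq, true_and, and_true]
  group

theorem cj_mvT [MulAction G X] (r : G) (i : ℕ) (w : Pt X G) : mvT i (cj r w) = cj r (mvT i w) := by
  unfold mvT cj
  dsimp only
  simp only [cl_drop, cl_take, cl_prod, cl_cl, cl_append, Prod.mk.injEq, true_and]
  congr 2
  group

theorem cj_mvC [MulAction G X] (r : G) (i : ℕ) (w : Pt X G) : mvC i (cj r w) = cj r (mvC i w) := by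
  unfold mvC cj
  dsimp only
  simp only [cl_drop, cl_take, cl_prod, cl_cl, cl_append, Prod.mk.injEq, true_and]
  constructor
  · group
  · congr 3
    group

/-! ### Injectivity -/

theorem mvB_inj {w w' : Pt X G} (h : mvB w = mvB w') : w = w' := by
  obtain ⟨s, x, y, l⟩ := w
  obtain ⟨s', x', y', l'⟩ := w'
  unfold mvB at h
  simp only [Prod.mk.injEq] at h
  obtain ⟨h1, h2, h3, h4⟩ := h
  subst h3
  rw [mul_left_inj] at h2
  rw [h1, h2, h4]

omit [Group G] in
theorem split_inj {p q p' q' : List G} (h : p ++ q = p' ++ q') (hp : p.length = p'.length) :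
    p = p' ∧ q = q' := List.append_inj h hp

theorem mvA_inj {i : ℕ} {w w' : Pt X G} (hi : i ≤ w.2.2.2.length) (hi' : i ≤ w'.2.2.2.length)
    (h : mvA i w = mvA i w') : w = w' := by
  obtain ⟨s, x, y, l⟩ := w
  obtain ⟨s', x', y', l'⟩ := w'
  obtain ⟨p, q, hl, hp⟩ := exists_split l hi
  obtain ⟨p', q', hl', hp'⟩ := exists_split l' hi'
  subst hl
  subst hl'
  have h1 := mvA_split s x y p q
  have h2 := mvA_split s' x' y' p' q'
  rw [hp] at h1
  rw [hp'] at h2
  rw [h1, h2] at h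
  simp only [Prod.mk.injEq] at h
  obtain ⟨h3, h4, h5, h6⟩ := h
  obtain ⟨h7, h8⟩ := split_inj h6 (by rw [hp, hp'])
  obtain ⟨v, hv⟩ : ∃ v, v = q.prod * (y * x * y⁻¹) := ⟨_, rfl⟩
  obtain ⟨v', hv'⟩ : ∃ v', v' = q'.prod * (y' * x' * y'⁻¹) := ⟨_, rfl⟩
  rw [← hv, ← hv'] at h5 h8
  have h9 := congrArg List.prod h8
  rw [cl_prod, cl_prod] at h9
  -- `v` can be recovered
  have h10 : v = v' := by
    have e1 : v = (v * q.prod * v⁻¹) * ((v * y) * x * (v * y)⁻¹) := by
      have : v * q.prod * v⁻¹ * (v * y * x * (v * y)⁻¹) = v * (q.prod * (y * x * y⁻¹)) * v⁻¹ := by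
        group
      rw [this, ← hv, mul_inv_cancel_right]
    have e2 : v' = (v' * q'.prod * v'⁻¹) * ((v' * y') * x' * (v' * y')⁻¹) := by
      have : v' * q'.prod * v'⁻¹ * (v' * y' * x' * (v' * y')⁻¹) =
          v' * (q'.prod * (y' * x' * y'⁻¹)) * v'⁻¹ := by group
      rw [this, ← hv', mul_inv_cancel_right]
    rw [e1, e2, h9, h5, h4]
  rw [h10] at h5 h8
  rw [h3, h4, mul_left_cancel h5, h7, cl_inj h8]

theorem mvT_inj {i : ℕ} {w w' : Pt X G} (hi : i ≤ w.2.2.2.length) (hi' : i ≤ w'.2.2.2.length)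
    (h : mvT i w = mvT i w') : w = w' := by
  obtain ⟨s, x, y, l⟩ := w
  obtain ⟨s', x', y', l'⟩ := w'
  obtain ⟨p, q, hl, hp⟩ := exists_split l hi
  obtain ⟨p', q', hl', hp'⟩ := exists_split l' hi'
  subst hl
  subst hl'
  have h1 := mvT_split s x y p q
  have h2 := mvT_split s' x' y' p' q'
  rw [hp] at h1
  rw [hp'] at h2
  rw [h1, h2] at h
  simp only [Prod.mk.injEq] at h
  obtain ⟨h3, h4, h5, h6⟩ := h
  obtain ⟨h7, h8⟩ := split_inj h6 (by rw [hp, hp'])
  have h9 := congrArg List.prod h8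
  rw [cl_prod, cl_prod, mul_inv_cancel_right, mul_inv_cancel_right] at h9
  rw [h9] at h8
  rw [h3, h4, h5, h7, cl_inj h8]

theorem mvC_inj {i : ℕ} {w w' : Pt X G} (hi : i < w.2.2.2.length) (hi' : i < w'.2.2.2.length)
    (h : mvC i w = mvC i w') : w = w' := by
  obtain ⟨s, x, y, l⟩ := w
  obtain ⟨s', x', y', l'⟩ := w'
  obtain ⟨p, z, q, hl, hp⟩ := exists_split' l hi
  obtain ⟨p', z', q', hl', hp'⟩ := exists_split' l' hi'
  subst hl
  subst hl'
  have h1 := mvC_split s x y z p q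
  have h2 := mvC_split s' x' y' z' p' q'
  rw [hp] at h1
  rw [hp'] at h2
  rw [h1, h2] at h
  simp only [Prod.mk.injEq] at h
  obtain ⟨h3, h4, h5, h6⟩ := h
  obtain ⟨h7, h8⟩ := split_inj h6 (by rw [hp, hp'])
  rw [List.cons.injEq] at h8
  obtain ⟨h8, h9⟩ := h8
  subst h9
  obtain ⟨K, hK⟩ : ∃ K, K = q.prod := ⟨_, rfl⟩
  rw [← hK] at h5 h8
  obtain ⟨v, hv⟩ : ∃ v, v = K⁻¹ * z * K * (y * x * y⁻¹) := ⟨_, rfl⟩
  obtain ⟨v', hv'⟩ : ∃ v', v' = K⁻¹ * z' * K * (y' * x' * y'⁻¹) := ⟨_, rfl⟩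
  rw [← hv, ← hv'] at h5 h8
  have h10 : v = v' := by
    have e1 : v = (K⁻¹ * (K * v * K⁻¹ * z * (K * v * K⁻¹)⁻¹) * K) * ((v * y) * x * (v * y)⁻¹) := by
      have : (K⁻¹ * (K * v * K⁻¹ * z * (K * v * K⁻¹)⁻¹) * K) * ((v * y) * x * (v * y)⁻¹) =
          v * (K⁻¹ * z * K * (y * x * y⁻¹)) * v⁻¹ := by group
      rw [this, ← hv, mul_inv_cancel_right]
    have e2 : v' = (K⁻¹ * (K * v' * K⁻¹ * z' * (K * v' * K⁻¹)⁻¹) * K) *
        ((v' * y') * x' * (v' * y')⁻¹) := by
      have : (K⁻¹ * (K * v' * K⁻¹ * z' * (K * v' * K⁻¹)⁻¹) * K) * ((v' * y') * x' * (v' * y')⁻¹) =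
          v' * (K⁻¹ * z' * K * (y' * x' * y'⁻¹)) * v'⁻¹ := by group
      rw [this, ← hv', mul_inv_cancel_right]
    rw [e1, e2, h8, h5, h4]
  rw [h10] at h5 h8
  have h11 : z = z' := by
    rw [mul_left_inj] at h8
    exact mul_left_cancel h8
  rw [h3, h4, mul_left_cancel h5, h7, h11]

/-! ### The subgroup generated by the entries -/

theorem prod_mem' {H : Subgroup G} {l : List G} (h : ∀ z ∈ l, z ∈ H) : l.prod ∈ H :=
  list_prod_mem h

theorem cl_mem {H : Subgroup G} {r : G} (hr : r ∈ H) {l : List G} :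
    (∀ z ∈ cl r l, z ∈ H) ↔ ∀ z ∈ l, z ∈ H := by
  constructor
  · intro h z hz
    have h1 := h (r * z * r⁻¹) (by rw [mem_cl]; simpa [mul_assoc] using hz)
    have h2 := H.mul_mem (H.mul_mem (H.inv_mem hr) h1) hr
    have e : r⁻¹ * (r * z * r⁻¹) * r = z := by group
    rwa [e] at h2
  · intro h z hz
    rw [mem_cl] at hz
    have h2 := H.mul_mem (H.mul_mem hr (h _ hz)) (H.inv_mem hr)
    have e : r * (r⁻¹ * z * r) * r⁻¹ = z := by group
    rwa [e] at h2

theorem Mem_mvB {H : Subgroup G} {w : Pt X G} : Mem H (mvB w) ↔ Mem H w := by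
  unfold Mem mvB
  dsimp only
  constructor
  · rintro ⟨h1, h2, h3⟩
    refine ⟨?_, h2, h3⟩
    have := H.mul_mem h1 h2
    rwa [inv_mul_cancel_right] at this
  · rintro ⟨h1, h2, h3⟩
    exact ⟨H.mul_mem h1 (H.inv_mem h2), h2, h3⟩

theorem Mem_mvA {H : Subgroup G} {i : ℕ} {w : Pt X G} (hi : i ≤ w.2.2.2.length) :
    Mem H (mvA i w) ↔ Mem H w := by
  obtain ⟨s, x, y, l⟩ := w
  obtain ⟨p, q, hl, hp⟩ := exists_split l hi
  subst hl
  subst hp
  rw [mvA_split]
  unfold Mem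
  dsimp only
  obtain ⟨v, hv⟩ : ∃ v, v = q.prod * (y * x * y⁻¹) := ⟨_, rfl⟩
  rw [← hv]
  constructor
  · rintro ⟨h1, h2, h3⟩
    have h4 : ∀ z ∈ cl v q, z ∈ H := fun z hz => h3 z (List.mem_append_right _ hz)
    have h5 := prod_mem' h4
    have h6 : v ∈ H := by
      have e1 : v = (cl v q).prod * ((v * y) * x * (v * y)⁻¹) := by
        rw [cl_prod]
        have : v * q.prod * v⁻¹ * (v * y * x * (v * y)⁻¹) = v * (q.prod * (y * x * y⁻¹)) * v⁻¹ := by
          group
        rw [this, ← hv, mul_inv_cancel_right]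
      rw [e1]
      exact H.mul_mem h5 (H.mul_mem (H.mul_mem h2 h1) (H.inv_mem h2))
    refine ⟨h1, ?_, ?_⟩
    · have := H.mul_mem (H.inv_mem h6) h2
      rwa [inv_mul_cancel_left] at this
    · intro z hz
      rcases List.mem_append.1 hz with hz | hz
      · exact h3 z (List.mem_append_left _ hz)
      · exact (cl_mem h6).1 h4 z hz
  · rintro ⟨h1, h2, h3⟩
    have h4 : ∀ z ∈ q, z ∈ H := fun z hz => h3 z (List.mem_append_right _ hz)
    have h6 : v ∈ H := by
      rw [hv]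
      exact H.mul_mem (prod_mem' h4) (H.mul_mem (H.mul_mem h2 h1) (H.inv_mem h2))
    refine ⟨h1, H.mul_mem h6 h2, ?_⟩
    intro z hz
    rcases List.mem_append.1 hz with hz | hz
    · exact h3 z (List.mem_append_left _ hz)
    · exact (cl_mem h6).2 h4 z hz

theorem Mem_mvT {H : Subgroup G} {i : ℕ} {w : Pt X G} (hi : i ≤ w.2.2.2.length) :
    Mem H (mvT i w) ↔ Mem H w := by
  obtain ⟨s, x, y, l⟩ := w
  obtain ⟨p, q, hl, hp⟩ := exists_split l hi
  subst hl
  subst hp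
  rw [mvT_split]
  unfold Mem
  dsimp only
  constructor
  · rintro ⟨h1, h2, h3⟩
    have h4 : ∀ z ∈ cl q.prod q, z ∈ H := fun z hz => h3 z (List.mem_append_right _ hz)
    have h5 : q.prod ∈ H := by
      have := prod_mem' h4
      rwa [cl_prod, mul_inv_cancel_right] at this
    refine ⟨h1, h2, ?_⟩
    intro z hz
    rcases List.mem_append.1 hz with hz | hz
    · exact h3 z (List.mem_append_left _ hz)
    · exact (cl_mem h5).1 h4 z hz
  · rintro ⟨h1, h2, h3⟩
    have h4 : ∀ z ∈ q, z ∈ H := fun z hz => h3 z (List.mem_append_right _ hz)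
    refine ⟨h1, h2, ?_⟩
    intro z hz
    rcases List.mem_append.1 hz with hz | hz
    · exact h3 z (List.mem_append_left _ hz)
    · exact (cl_mem (prod_mem' h4)).2 h4 z hz

theorem Mem_mvC {H : Subgroup G} {i : ℕ} {w : Pt X G} (hi : i < w.2.2.2.length) :
    Mem H (mvC i w) ↔ Mem H w := by
  obtain ⟨s, x, y, l⟩ := w
  obtain ⟨p, z, q, hl, hp⟩ := exists_split' l hi
  subst hl
  subst hp
  rw [mvC_split]
  unfold Mem
  dsimp only
  obtain ⟨K, hK⟩ : ∃ K, K = q.prod := ⟨_, rfl⟩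
  rw [← hK]
  obtain ⟨v, hv⟩ : ∃ v, v = K⁻¹ * z * K * (y * x * y⁻¹) := ⟨_, rfl⟩
  rw [← hv]
  constructor
  · rintro ⟨h1, h2, h3⟩
    have h4 : ∀ a ∈ q, a ∈ H := fun a ha =>
      h3 a (List.mem_append_right _ (List.mem_cons_of_mem _ ha))
    have h5 : K ∈ H := by rw [hK]; exact prod_mem' h4
    have h6 := h3 _ (List.mem_append_right _ (List.mem_cons_self ..))
    have h7 : v ∈ H := by
      have e1 : v = (K⁻¹ * (K * v * K⁻¹ * z * (K * v * K⁻¹)⁻¹) * K) *
          ((v * y) * x * (v * y)⁻¹) := by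
        have : (K⁻¹ * (K * v * K⁻¹ * z * (K * v * K⁻¹)⁻¹) * K) * ((v * y) * x * (v * y)⁻¹) =
            v * (K⁻¹ * z * K * (y * x * y⁻¹)) * v⁻¹ := by group
        rw [this, ← hv, mul_inv_cancel_right]
      rw [e1]
      exact H.mul_mem (H.mul_mem (H.mul_mem (H.inv_mem h5) h6) h5)
        (H.mul_mem (H.mul_mem h2 h1) (H.inv_mem h2))
    refine ⟨h1, ?_, ?_⟩
    · have := H.mul_mem (H.inv_mem h7) h2
      rwa [inv_mul_cancel_left] at this
    · intro a ha
      rcases List.mem_append.1 ha with ha | ha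
      · exact h3 a (List.mem_append_left _ ha)
      · rcases List.mem_cons.1 ha with rfl | ha
        · have h8 : K * v * K⁻¹ ∈ H := H.mul_mem (H.mul_mem h5 h7) (H.inv_mem h5)
          have h9 := H.mul_mem (H.mul_mem (H.inv_mem h8) h6) h8
          have e : (K * v * K⁻¹)⁻¹ * (K * v * K⁻¹ * a * (K * v * K⁻¹)⁻¹) * (K * v * K⁻¹) = a := by
            group
          rwa [e] at h9
        · exact h4 a ha
  · rintro ⟨h1, h2, h3⟩
    have h4 : ∀ a ∈ q, a ∈ H := fun a ha =>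
      h3 a (List.mem_append_right _ (List.mem_cons_of_mem _ ha))
    have h5 : K ∈ H := by rw [hK]; exact prod_mem' h4
    have h6 : z ∈ H := h3 _ (List.mem_append_right _ (List.mem_cons_self ..))
    have h7 : v ∈ H := by
      rw [hv]
      exact H.mul_mem (H.mul_mem (H.mul_mem (H.inv_mem h5) h6) h5)
        (H.mul_mem (H.mul_mem h2 h1) (H.inv_mem h2))
    refine ⟨h1, H.mul_mem h7 h2, ?_⟩
    intro a ha
    rcases List.mem_append.1 ha with ha | ha
    · exact h3 a (List.mem_append_left _ ha)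
    · rcases List.mem_cons.1 ha with rfl | ha
      · have h8 : K * v * K⁻¹ ∈ H := H.mul_mem (H.mul_mem h5 h7) (H.inv_mem h5)
        exact H.mul_mem (H.mul_mem h8 h6) (H.inv_mem h8)
      · exact h4 a ha

end

end Pool.Agent.H98BT
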