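import Mathlib

/-! A lemma on finite abelian groups: if `M / Q` is cyclic and `φ : Q → M` is injective without
nontrivial invariant subgroup then `m ^ |M : Q| = 1` for all `m`. -/

set_option autoImplicit false

namespace Pool.Agent.H98BT

open Subgroup

universe u

/-- in a finite cyclic group the elements with `z ^ k = 1`, `k` the order of a subgroup, are in the
subgroup -/
theorem cyclic_mem {C : Type*} [CommGroup C] [Finite C] [IsCyclic C] (S : Subgroup C) {z : C}
    (hz : z ^ Nat.card S = 1) : z ∈ S := by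
  classical
  haveI := Fintype.ofFinite C
  have h1 := IsCyclic.card_pow_eq_one_le (α := C) (n := Nat.card S) Nat.card_pos
  have h2 : (Finset.univ.filter (fun a : C => a ∈ S)) ⊆
      Finset.univ.filter (fun a : C => a ^ Nat.card S = 1) := by
    intro a ha
    rw [Finset.mem_filter] at ha ⊢
    refine ⟨ha.1, ?_⟩
    have h3 := pow_card_eq_one' (x := (⟨a, ha.2⟩ : S))
    exact congrArg Subtype.val h3
  have h3 : (Finset.univ.filter (fun a : C => a ∈ S)).card = Nat.card S := by
    rw [Nat.card_eq_fintype_card, Fintype.card_subtype]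
  have h4 := Finset.eq_of_subset_of_card_le h2 (by rw [h3]; exact h1)
  have h5 : z ∈ Finset.univ.filter (fun a : C => a ^ Nat.card S = 1) := by
    rw [Finset.mem_filter]
    exact ⟨Finset.mem_univ _, hz⟩
  rw [← h4, Finset.mem_filter] at h5
  exact h5.2

theorem abel_aux (n : ℕ) : ∀ (M : Type u) [CommGroup M] [Finite M] (Q : Subgroup M) (φ : Q →* M),
    Nat.card M ≤ n → Function.Injective φ → IsCyclic (M ⧸ Q) →
    (∀ S : Subgroup M, S ≤ Q → (∀ s : Q, (s : M) ∈ S → φ s ∈ S) → S = ⊥) →
    ∀ m : M, m ^ Q.index = 1 := by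
  induction n with
  | zero =>
    intro M _ _ Q φ hn
    have h0 : 0 < Nat.card M := Nat.card_pos
    omega
  | succ n ih =>
    intro M _ _ Q φ hn hφ hcyc hinv v
    by_cases hQ : Q = ⊤
    · subst hQ
      have h1 : (⊤ : Subgroup M) = ⊥ := hinv ⊤ le_rfl (fun s _ => Subgroup.mem_top _)
      have h2 : v ∈ (⊥ : Subgroup M) := h1 ▸ Subgroup.mem_top v
      rw [Subgroup.mem_bot.1 h2, one_pow]
    · have hlt : Nat.card Q < Nat.card M := by
        have h1 := Q.card_mul_index
        have h3 : Q.index ≠ 1 := fun h => hQ (Subgroup.index_eq_one.1 h)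
        have h4 : Q.index ≠ 0 := Subgroup.index_ne_zero_of_finite
        have h2 : 2 ≤ Q.index := by omega
        have h5 : 0 < Nat.card Q := Nat.card_pos
        calc Nat.card Q < Nat.card Q * 2 := by omega
          _ ≤ Nat.card Q * Q.index := Nat.mul_le_mul_left _ h2
          _ = Nat.card M := h1
      -- the smaller triple
      have h3 : Nat.card Q ≤ n := by omega
      obtain ⟨Q', hQ'⟩ : ∃ Q' : Subgroup Q, Q' = Q.comap φ := ⟨_, rfl⟩
      have hmem : ∀ q : Q, q ∈ Q' ↔ φ q ∈ Q := by
        intro q
        rw [hQ', Subgroup.mem_comap]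
      let φ' : Q' →* Q := (φ.comp Q'.subtype).codRestrict Q (fun q => (hmem _).1 q.2)
      have hφ'v : ∀ q : Q', ((φ' q : Q) : M) = φ q := fun q => rfl
      have hφ' : Function.Injective φ' := by
        intro a b hab
        have h4 : φ a = φ b := by rw [← hφ'v, ← hφ'v, hab]
        exact Subtype.ext (hφ h4)
      let ι : (Q ⧸ Q') →* (M ⧸ Q) := QuotientGroup.map Q' Q φ (by rw [hQ'])
      have hι : Function.Injective ι := by
        rw [injective_iff_map_eq_one]
        intro a ha
        induction a using QuotientGroup.induction_on with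
        | H q =>
          change ((φ q : M) : M ⧸ Q) = 1 at ha
          rw [QuotientGroup.eq_one_iff] at ha
          rw [QuotientGroup.eq_one_iff]
          exact (hmem q).2 ha
      have hcyc' : IsCyclic (Q ⧸ Q') := isCyclic_of_injective ι hι
      have hinv' : ∀ S : Subgroup Q, S ≤ Q' → (∀ s : Q', (s : Q) ∈ S → φ' s ∈ S) → S = ⊥ := by
        intro S hS hs
        have h4 : S.map Q.subtype = ⊥ := by
          apply hinv
          · rintro _ ⟨q, _, rfl⟩
            exact q.2
          · intro s hsm
            obtain ⟨q, hq, hqs⟩ := hsm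
            have hqs' : q = s := Subtype.ext hqs
            subst hqs'
            exact ⟨φ' ⟨q, hS hq⟩, hs ⟨q, hS hq⟩ hq, rfl⟩
        rw [Subgroup.map_eq_bot_iff_of_injective _ Q.subtype_injective] at h4
        exact h4
      have key := ih Q Q' φ' h3 hφ' hcyc' hinv'
      -- the orders
      have hcard : Nat.card ι.range = Q'.index := by
        rw [Subgroup.index, Nat.card_congr (MonoidHom.ofInjective hι).toEquiv]
      have hdvd : Q'.index ∣ Q.index := by
        rw [← hcard]
        exact Subgroup.card_subgroup_dvd_card ι.range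
      obtain ⟨e, he⟩ := hdvd
      have h5 : (((v ^ e : M) : M ⧸ Q)) ∈ ι.range := by
        apply cyclic_mem
        rw [hcard]
        have h6 : ((v : M ⧸ Q)) ^ Nat.card (M ⧸ Q) = 1 := pow_card_eq_one'
        change ((v : M ⧸ Q)) ^ Q.index = 1 at h6
        rw [QuotientGroup.mk_pow, ← pow_mul, mul_comm e, ← he]
        exact h6
      obtain ⟨a, ha⟩ := h5
      induction a using QuotientGroup.induction_on with
      | H q =>
        change ((φ q : M) : M ⧸ Q) = _ at ha
        rw [QuotientGroup.eq] at ha
        have h7 := key ⟨_, ha⟩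
        have h8 := key q
        have h9 : ((φ q)⁻¹ * v ^ e) ^ Q'.index = 1 := congrArg Subtype.val h7
        have h10 : (φ q) ^ Q'.index = 1 := by rw [← map_pow, h8, map_one]
        have h11 : v ^ Q.index = (φ q) ^ Q'.index * ((φ q)⁻¹ * v ^ e) ^ Q'.index := by
          rw [← mul_pow, mul_inv_cancel_left, ← pow_mul, he, mul_comm]
        rw [h11, h9, h10, mul_one]

/-- **the lemma** -/
theorem abel (M : Type u) [CommGroup M] [Finite M] (Q : Subgroup M) (φ : Q →* M)
    (hφ : Function.Injective φ) (hcyc : IsCyclic (M ⧸ Q))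
    (hinv : ∀ S : Subgroup M, S ≤ Q → (∀ s : Q, (s : M) ∈ S → φ s ∈ S) → S = ⊥) (m : M) :
    m ^ Q.index = 1 :=
  abel_aux _ M Q φ le_rfl hφ hcyc hinv m

end Pool.Agent.H98BT
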